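import Pool.Agent.Lib.MP_c5d73d_lc.T.Defs
import Pool.Agent.Lib.MP_100a6c_lc.H1.RO

/-!
# The finite support iteration as one poset of finite partial functions
-/

universe u

open Cardinal Set

namespace Pool.Agent.Lib.MP_c5d73d_lc.I

/-! ## General statements -/

/-- The Delta-system lemma for finite sets. -/
def DeltaStatement : Prop := ∀ (ι X : Type u) (s : ι → Set X), (∀ i, (s i).Finite) →
  ∀ A : Set ι, ¬ A.Countable → ∃ A' ⊆ A, ¬ A'.Countable ∧ ∃ D : Set X, D.Finite ∧
    ∀ i ∈ A', ∀ j ∈ A', i ≠ j → s i ∩ s j ⊆ D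

/-! ## Conditions -/

section conditions

variable {K : Type u} [LinearOrder K]

/-- A (potential) condition is a partial function from `K` to `K`. -/
abbrev Cd (K : Type u) : Type u := K → Option K

/-- The support. -/
def supp (p : Cd K) : Set K := {β | p β ≠ none}

/-- Restriction to the coordinates below `α`. -/
def restr (p : Cd K) (α : K) : Cd K := open Classical in fun β => if β < α then p β else none

/-- `r` below `α` and `p` from `α` on. -/
def glue (r p : Cd K) (α : K) : Cd K := open Classical in fun β => if β < α then r β else p β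

/-- The underlying set of the poset with name `E`. -/
def fld (E : Set (Cd K × K × K)) : Set K :=
  {ξ | ∃ s η, (s, ξ, η) ∈ E ∨ (s, η, ξ) ∈ E}

/-- All coordinates are below `α`. -/
def Bd (α : K) (p : Cd K) : Prop := ∀ β, p β ≠ none → β < α

/-- The order of the iteration below `α`, given the orders `f β` forced at the stages `β < α`. -/
def preLe (α : K) (f : ∀ β, β < α → Prop × (Cd K → K → K → Prop)) (q p : Cd K) : Prop :=
  ∀ β (h : β < α), ∀ η, p β = some η → ∃ ξ, q β = some ξ ∧ (f β h).2 (restr q β) ξ η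

/-- The valid conditions below `α`. -/
def preVd (e : K → Set (Cd K × K × K)) (α : K)
    (f : ∀ β, β < α → Prop × (Cd K → K → K → Prop)) (p : Cd K) : Prop :=
  (supp p).Finite ∧ Bd α p ∧ ∀ β (h : β < α), ∀ ξ, p β = some ξ → (f β h).1 ∧ ξ ∈ fld (e β)

/-- Forcing `ξ ≤ η` for the name `E`, with respect to the order `L` and the valid conditions. -/
def frc (Vd : Cd K → Prop) (L : Cd K → Cd K → Prop) (E : Set (Cd K × K × K)) (r : Cd K)
    (ξ η : K) : Prop :=
  ∀ r', Vd r' → L r' r → ∃ r'', Vd r'' ∧ L r'' r' ∧ ∃ s, (s, ξ, η) ∈ E ∧ L r'' s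

/-- The name `E` is used: its conditions are valid and it is forced to be a ccc preorder. -/
def good (Vd : Cd K → Prop) (L : Cd K → Cd K → Prop) (E : Set (Cd K × K × K)) : Prop :=
  (∀ s ξ η, (s, ξ, η) ∈ E → Vd s) ∧
  (∀ r, Vd r → ∀ ξ ∈ fld E, frc Vd L E r ξ ξ) ∧
  (∀ r, Vd r → ∀ ξ η ζ, frc Vd L E r ξ η → frc Vd L E r η ζ → frc Vd L E r ξ ζ) ∧
  ∀ A : Set (Cd K × K), (∀ a ∈ A, Vd a.1 ∧ a.2 ∈ fld E) →
    A.Pairwise (fun a b => ∀ t ζ, Vd t → L t a.1 → L t b.1 → ζ ∈ fld E →
      ¬ (frc Vd L E t ζ a.2 ∧ frc Vd L E t ζ b.2)) → A.Countable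

variable [WellFoundedLT K] (e : K → Set (Cd K × K × K))

/-- Stage `α`: whether the name `e α` is used, and the forcing relation for it. -/
noncomputable def stage : K → Prop × (Cd K → K → K → Prop) :=
  (wellFounded_lt (α := K)).fix fun α f =>
    (good (preVd e α f) (preLe α f) (e α), frc (preVd e α f) (preLe α f) (e α))

/-- Stage `α` is used. -/
def Gd (α : K) : Prop := (stage e α).1

/-- The forcing relation of stage `α`. -/
def Fr (α : K) : Cd K → K → K → Prop := (stage e α).2

/-- The order of the iteration. -/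
def Le (q p : Cd K) : Prop :=
  ∀ β η, p β = some η → ∃ ξ, q β = some ξ ∧ Fr e β (restr q β) ξ η

/-- The valid conditions. -/
def Vd (p : Cd K) : Prop :=
  (supp p).Finite ∧ ∀ β ξ, p β = some ξ → Gd e β ∧ ξ ∈ fld (e β)

end conditions

end Pool.Agent.Lib.MP_c5d73d_lc.I
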