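import Pool.Agent.Lib.MP_c5d73d_lc.I.Defs

/-!
# Regular open algebras: hulls of sets of conditions; interface
-/

universe u

open Cardinal Set

namespace Pool.Agent.Lib.MP_c5d73d_lc.I

open Pool.Agent.Lib.MP_100a6c_lc.H1 (RO)

/-- Two conditions are compatible. -/
def Compat {P : Type u} [Preorder P] (p q : P) : Prop := ∃ r, r ≤ p ∧ r ≤ q

/-- The poset is ccc. -/
def PCCC (P : Type u) [Preorder P] : Prop :=
  ∀ A : Set P, A.Pairwise (fun p q => ¬ Compat p q) → A.Countable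

/-- The basic facts on regular open algebras used below. -/
structure ROFacts (P : Type u) [Preorder P] : Prop where
  dense : ∀ (b : RO P) (p : P), (∀ q ≤ p, ∃ r ≤ q, r ∈ (b : LowerSet P)) → p ∈ (b : LowerSet P)
  le : ∀ b c : RO P, b ≤ c ↔ ∀ p, p ∈ (b : LowerSet P) → p ∈ (c : LowerSet P)
  top : ∀ p : P, p ∈ ((⊤ : RO P) : LowerSet P)
  bot : ∀ b : RO P, b = ⊥ ↔ ∀ p, p ∉ (b : LowerSet P)
  inf : ∀ (b c : RO P) (p : P), p ∈ ((b ⊓ c : RO P) : LowerSet P) ↔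
    p ∈ (b : LowerSet P) ∧ p ∈ (c : LowerSet P)
  compl : ∀ (b : RO P) (p : P), p ∈ ((bᶜ : RO P) : LowerSet P) ↔ ∀ q ≤ p, q ∉ (b : LowerSet P)
  iSup : ∀ (ι : Type u) (b : ι → RO P) (p : P), p ∈ ((⨆ i, b i : RO P) : LowerSet P) ↔
    ∀ q ≤ p, ∃ r ≤ q, ∃ i, r ∈ (b i : LowerSet P)
  hull : ∀ S : Set P, ∃ b : RO P, ∀ p, p ∈ (b : LowerSet P) ↔ ∀ q ≤ p, ∃ r ≤ q, ∃ s ∈ S, r ≤ s

/-- RO1. -/
def ROStatement : Prop := ∀ (P : Type u) [Preorder P], ROFacts P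

/-- RO2: consequences of the chain condition. -/
def ROCStatement : Prop := ∀ (P : Type u) [Preorder P], PCCC P →
  T.CCC (RO P) ∧
  (∀ b : RO P, ∃ S : Set P, S.Countable ∧ (∀ s ∈ S, s ∈ (b : LowerSet P)) ∧
    ∀ p ∈ (b : LowerSet P), ∃ r ≤ p, ∃ s ∈ S, r ≤ s) ∧
  ∀ κ : Cardinal.{u}, κ ^ (ℵ₀ : Cardinal.{u}) ≤ κ → ℵ₀ ≤ κ → #P ≤ κ → #(RO P) ≤ κ

end Pool.Agent.Lib.MP_c5d73d_lc.I
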